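import Pool.Agent.H11.ZDE.Stmts

/-!
# Module REP: the geometric representation of a simply laced Coxeter system on a root lattice

For a root lattice `R : RootLat L` with simple roots `α : B → L` whose Gram matrix is the Cartan matrix of the
simply laced Coxeter matrix `M`, and a Coxeter system `cs` of `M`, we build `Geo cs R`.
-/

namespace Pool.Agent.H22.ZDE

open Pool.Agent.H11.ZDE
open RootLat

variable {B W : Type*} [Group W] {M : CoxeterMatrix B} {L : Type*} [AddCommGroup L]

/-- the simple roots of a root lattice, with the Cartan matrix of a simply laced Coxeter matrix -/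
structure Simp (M : CoxeterMatrix B) (R : RootLat L) (α : B → L) : Prop where
  range : Set.range α = R.S
  sl : ∀ i j, i ≠ j → M i j = 2 ∨ M i j = 3
  two : ∀ i j, M i j = 2 → R.Q (α i) (α j) = 0
  three : ∀ i j, M i j = 3 → R.Q (α i) (α j) = -1

/-- the same from the Cartan matrix -/
theorem Simp.of_cart [DecidableEq B] {R : RootLat L} {α : B → L} (hr : Set.range α = R.S)
    (hsl : ∀ i j, i ≠ j → M i j = 2 ∨ M i j = 3) (hq : ∀ i j, R.Q (α i) (α j) = cart M i j) : Simp M R α where
  range := hr
  sl := hsl
  two i j h := by
    rw [hq]
    unfold cart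
    have hij : i ≠ j := by
      rintro rfl
      rw [M.diagonal] at h
      omega
    rw [if_neg hij, if_neg (by omega)]
  three i j h := by
    rw [hq]
    unfold cart
    have hij : i ≠ j := by
      rintro rfl
      rw [M.diagonal] at h
      omega
    rw [if_neg hij, if_pos h]

namespace Simp

variable {R : RootLat L} {α : B → L} (h : Simp M R α)
include h

theorem mem (i : B) : α i ∈ R.S := h.range ▸ Set.mem_range_self i

theorem q (i : B) : R.Q (α i) (α i) = 2 := R.S_root _ (h.mem i)

theorem p (i : B) : R.P (α i) := R.S_pos _ (h.mem i)

theorem liftable : M.IsLiftable (fun i => R.r (α i)) := by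
  intro i j
  by_cases hij : i = j
  · subst hij
    rw [M.diagonal, pow_one]
    exact R.r_r (h.q i)
  · rcases h.sl i j hij with h2 | h3
    · have e := R.sw0 (h.two i j h2)
      change (R.r (α i) * R.r (α j)) ^ (M i j) = 1
      rw [h2, pow_two, mul_assoc, ← mul_assoc (R.r (α j)), ← e, mul_assoc, R.r_r (h.q j), mul_one,
        R.r_r (h.q i)]
    · have e := h.three i j h3
      change (R.r (α i) * R.r (α j)) ^ (M i j) = 1
      rw [h3]
      have e' : R.Q (α j) (α i) = -1 := by rw [R.Q_comm]; exact e
      ext a
      simp only [pow_succ, pow_zero, one_mul, Module.End.mul_apply, Module.End.one_apply, r_apply, Q_sub, Q_smul,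
        e, e', h.q i, h.q j]
      module

end Simp

section rep

variable (cs : CoxeterSystem M W) {R : RootLat L} {α : B → L} (h : Simp M R α)

/-- the geometric representation -/
noncomputable def rho : W →* Module.End ℤ L := cs.lift ⟨fun i => R.r (α i), h.liftable⟩

theorem rho_simple (i : B) : rho cs h (cs.simple i) = R.r (α i) := by
  unfold rho
  exact cs.lift_apply_simple h.liftable i

theorem rho_iso (w : W) : ∀ a b, R.Q (rho cs h w a) (rho cs h w b) = R.Q a b := by
  induction w using cs.simple_induction_left with
  | one => intro a b; simp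
  | mul_simple_left w i ih =>
    intro a b
    rw [map_mul, Module.End.mul_apply, Module.End.mul_apply, rho_simple, R.Q_r (h.q i), ih]

theorem rho_mul_apply (v w : W) (a : L) : rho cs h (v * w) a = rho cs h v (rho cs h w a) := by
  rw [map_mul, Module.End.mul_apply]

theorem rho_simple_self (i : B) : rho cs h (cs.simple i) (α i) = - α i := by
  rw [rho_simple, R.r_self (h.q i)]

/-- `ℓ (w s_i) > ℓ w` implies `ρ w α_i > 0` -/
theorem key : ∀ (n : ℕ) (w : W) (i : B), cs.length w = n → cs.length w < cs.length (w * cs.simple i) →
    R.P (rho cs h w (α i)) := by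
  intro n
  induction n using Nat.strong_induction_on with
  | _ n ih =>
    intro w i hn hlt
    by_cases hw : w = 1
    · subst hw
      simpa using h.p i
    · obtain ⟨j, hj⟩ := cs.exists_rightDescent_of_ne_one hw
      have hj' : cs.length (w * cs.simple j) + 1 = cs.length w := cs.isRightDescent_iff.1 hj
      have hij : i ≠ j := by
        rintro rfl
        omega
      obtain ⟨v, hv⟩ : ∃ v, v = w * cs.simple j := ⟨_, rfl⟩
      have hwv : w = v * cs.simple j := by rw [hv, mul_assoc, cs.simple_mul_simple_self, mul_one]
      rw [← hv] at hj'
      subst hwv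
      rcases h.sl i j hij with h2 | h3
      · -- commuting case
        have hc : cs.simple j * cs.simple i = cs.simple i * cs.simple j := by
          have := cs.simple_mul_simple_pow i j
          rw [h2, pow_two] at this
          have e1 : cs.simple i * cs.simple j * (cs.simple i * cs.simple j) * (cs.simple j * cs.simple i)
            = cs.simple j * cs.simple i := by rw [this, one_mul]
          rw [← e1]
          simp only [mul_assoc, cs.simple_mul_simple_cancel_left, cs.simple_mul_simple_self, mul_one]
        have e : rho cs h (v * cs.simple j) (α i) = rho cs h v (α i) := by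
          rw [rho_mul_apply, rho_simple, r_apply, h.two i j h2]
          simp
        rw [e]
        refine ih _ (by omega) v i rfl ?_
        rcases cs.length_mul_simple v i with h1 | h1
        · omega
        · exfalso
          have h4 : cs.length (v * cs.simple j * cs.simple i) ≤ cs.length (v * cs.simple i) + 1 := by
            rw [mul_assoc, hc, ← mul_assoc]
            have := cs.length_mul_le (v * cs.simple i) (cs.simple j)
            rwa [cs.length_simple] at this
          omega
      · have e : rho cs h (v * cs.simple j) (α i) = rho cs h v (α i) + rho cs h v (α j) := by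
          rw [rho_mul_apply, rho_simple, r_apply, h.three i j h3]
          simp
        rw [e]
        have hvj : R.P (rho cs h v (α j)) := ih _ (by omega) v j rfl (by omega)
        rcases cs.length_mul_simple v i with h1 | h1
        · exact R.P_add (ih _ (by omega) v i rfl (by omega)) hvj
        · obtain ⟨u, hu⟩ : ∃ u, u = v * cs.simple i := ⟨_, rfl⟩
          have hvu : v = u * cs.simple i := by rw [hu, mul_assoc, cs.simple_mul_simple_self, mul_one]
          rw [← hu] at h1
          subst hvu
          have e2 : rho cs h (u * cs.simple i) (α i) + rho cs h (u * cs.simple i) (α j) = rho cs h u (α j) := by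
            rw [rho_mul_apply, rho_mul_apply, rho_simple, r_apply, r_apply, R.Q_comm (α j), h.three i j h3, h.q i,
              ← map_add]
            congr 1
            module
          rw [e2]
          refine ih _ (by omega) u j rfl ?_
          rcases cs.length_mul_simple u j with h4 | h4
          · omega
          · exfalso
            have hb : cs.simple i * cs.simple j * cs.simple i = cs.simple j * cs.simple i * cs.simple j := by
              have := cs.simple_mul_simple_pow i j
              rw [h3] at this
              have e1 : (cs.simple i * cs.simple j) ^ 3 * (cs.simple j * cs.simple i * cs.simple j)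
                = cs.simple j * cs.simple i * cs.simple j := by rw [this, one_mul]
              rw [← e1]
              simp only [pow_succ, pow_zero, one_mul, mul_assoc, cs.simple_mul_simple_cancel_left,
                cs.simple_mul_simple_self, mul_one]
            have h5 : cs.length (u * cs.simple i * cs.simple j * cs.simple i) ≤ cs.length (u * cs.simple j) + 2 := by
              have e6 : u * cs.simple i * cs.simple j * cs.simple i
                  = u * cs.simple j * cs.simple i * cs.simple j := by
                rw [mul_assoc, mul_assoc, ← mul_assoc (cs.simple i), hb]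
                simp only [mul_assoc]
              rw [e6]
              have h7 := cs.length_mul_le (u * cs.simple j * cs.simple i) (cs.simple j)
              have h8 := cs.length_mul_le (u * cs.simple j) (cs.simple i)
              rw [cs.length_simple] at h7 h8
              omega
            omega

theorem key' (w : W) (i : B) (hd : cs.length (w * cs.simple i) < cs.length w) :
    R.P (-(rho cs h w (α i))) := by
  have h1 := key cs h _ (w * cs.simple i) i rfl (by
    rw [mul_assoc, cs.simple_mul_simple_self, mul_one]; exact hd)
  rw [rho_mul_apply, rho_simple_self, map_neg] at h1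
  exact h1

theorem rho_inj : Function.Injective (rho cs h) := by
  rw [injective_iff_map_eq_one]
  intro w hw
  by_contra hne
  obtain ⟨i, hi⟩ := cs.exists_rightDescent_of_ne_one hne
  have h1 := key' cs h w i hi
  rw [hw, Module.End.one_apply] at h1
  exact R.P_neg (h.p i) h1

/-- conjugation: `ρ w r_b = r_{ρ w b} ρ w` -/
theorem rho_conj (w : W) (b : L) : rho cs h w * R.r b = R.r (rho cs h w b) * rho cs h w := by
  ext a
  rw [Module.End.mul_apply, Module.End.mul_apply, r_apply, r_apply, map_sub, map_zsmul, rho_iso]

theorem exists_pos : ∀ (n : ℕ) (b : L), R.ht b = n → R.Q b b = 2 → R.P b →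
    ∃ w i, rho cs h w (α i) = b := by
  intro n
  induction n using Nat.strong_induction_on with
  | _ n ih =>
    intro b hn hq hp
    by_cases hs : b ∈ R.S
    · rw [← h.range] at hs
      obtain ⟨i, rfl⟩ := hs
      exact ⟨1, i, by simp⟩
    · obtain ⟨s, hsS, hqs, hps⟩ := R.nonsimple b hq hp hs
      obtain ⟨j, rfl⟩ : s ∈ Set.range α := by rw [h.range]; exact hsS
      have hht : R.ht (b - α j) = R.ht b - 1 := by
        have h1 := R.ht_add (b - α j) (α j)
        rw [sub_add_cancel, R.S_ht _ hsS] at h1
        omega
      have hpos := R.ht_pos _ hps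
      obtain ⟨w, i, hw⟩ := ih (n - 1) (by omega) (b - α j) (by omega) (by
        rw [R.Q_sub, R.Q_subr, R.Q_subr, hq, hqs, R.Q_comm, hqs, h.q j]; norm_num) hps
      refine ⟨cs.simple j * w, i, ?_⟩
      rw [rho_mul_apply, hw, rho_simple, r_apply, R.Q_sub, hqs, h.q j]
      module

theorem exists_root (b : L) (hq : R.Q b b = 2) : ∃ w i, rho cs h w (α i) = b := by
  rcases R.P_root b hq with hp | hp
  · have := R.ht_pos b hp
    exact exists_pos cs h (R.ht b).toNat b (by omega) hq hp
  · have h1 := R.ht_pos _ hp
    obtain ⟨w, i, hw⟩ := exists_pos cs h (R.ht (-b)).toNat (-b) (by omega) (by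
      rw [R.Q_neg, R.Q_negr, hq]; norm_num) hp
    refine ⟨w * cs.simple i, i, ?_⟩
    rw [rho_mul_apply, rho_simple_self, map_neg, hw, neg_neg]

open Classical in
/-- the reflection of a root -/
noncomputable def refl (b : L) : W :=
  if hq : ∃ w i, rho cs h w (α i) = b then
    hq.choose * cs.simple hq.choose_spec.choose * (hq.choose)⁻¹ else 1

theorem refl_spec (b : L) (hq : R.Q b b = 2) : ∃ w i, rho cs h w (α i) = b ∧
    refl cs h b = w * cs.simple i * w⁻¹ := by
  have hq' := exists_root cs h b hq
  refine ⟨hq'.choose, hq'.choose_spec.choose, hq'.choose_spec.choose_spec, ?_⟩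
  unfold refl
  rw [dif_pos hq']

theorem rho_refl (b : L) (hq : R.Q b b = 2) : rho cs h (refl cs h b) = R.r b := by
  obtain ⟨w, i, hb, e⟩ := refl_spec cs h b hq
  rw [e, map_mul, map_mul, rho_simple, rho_conj, hb, mul_assoc, ← map_mul, mul_inv_cancel, map_one, mul_one]

theorem refl_sq (b : L) (hq : R.Q b b = 2) : refl cs h b * refl cs h b = 1 := by
  apply rho_inj cs h
  rw [map_mul, map_one, rho_refl cs h b hq, R.r_r hq]

theorem refl_simple (i : B) : refl cs h (α i) = cs.simple i := by
  apply rho_inj cs h
  rw [rho_refl cs h _ (h.q i), rho_simple]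

theorem gt_aux : ∀ (n : ℕ) (w : W) (b : L), cs.length w = n → R.Q b b = 2 → R.P b → R.P (-(rho cs h w b)) →
    cs.length (w * refl cs h b) < cs.length w := by
  intro n
  induction n with
  | zero =>
    intro w b hn hq hp hneg
    rw [cs.length_eq_zero_iff] at hn
    subst hn
    rw [map_one, Module.End.one_apply] at hneg
    exact (R.P_neg hp hneg).elim
  | succ n ih =>
    intro w b hn hq hp hneg
    have hw : w ≠ 1 := by
      rintro rfl
      rw [cs.length_one] at hn
      omega
    obtain ⟨i, hi⟩ := cs.exists_leftDescent_of_ne_one hw
    have hi' : cs.length (cs.simple i * w) + 1 = cs.length w := cs.isLeftDescent_iff.1 hi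
    obtain ⟨v, hv⟩ : ∃ v, v = cs.simple i * w := ⟨_, rfl⟩
    have hwv : w = cs.simple i * v := by rw [hv, cs.simple_mul_simple_cancel_left]
    rw [← hv] at hi'
    subst hwv
    have hvn : cs.length v = n := by omega
    have hqv : R.Q (rho cs h v b) (rho cs h v b) = 2 := by rw [rho_iso, hq]
    rcases R.P_root _ hqv with hpv | hnv
    · -- `ρ v b > 0`, hence `ρ v b = α i`
      have hvb : rho cs h v b = α i := by
        by_contra hne
        have h1 := R.S_refl _ (h.mem i) _ hqv hpv hne
        rw [rho_mul_apply, rho_simple, r_apply] at hneg
        exact R.P_neg h1 hneg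
      have e : cs.simple i * v * refl cs h b = v := by
        apply rho_inj cs h
        rw [map_mul, map_mul, rho_refl cs h b hq, mul_assoc, rho_conj, hvb, rho_simple, ← mul_assoc,
          R.r_r (h.q i), one_mul]
      rw [e]
      omega
    · have h1 := ih v b hvn hq hp hnv
      have h2 := cs.length_mul_le (cs.simple i) (v * refl cs h b)
      rw [cs.length_simple, ← mul_assoc] at h2
      omega

/-- Module REP: the geometric representation. -/
noncomputable def geo : Geo cs R where
  ρ := rho cs h
  T := refl cs h
  α := α
  iso := rho_iso cs h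
  inj := rho_inj cs h
  ρT := rho_refl cs h
  αS := h.range
  Tα := refl_simple cs h
  refl := by
    intro t
    constructor
    · rintro ⟨w, i, rfl⟩
      have hq : R.Q (rho cs h w (α i)) (rho cs h w (α i)) = 2 := by rw [rho_iso, h.q i]
      have key : w * cs.simple i * w⁻¹ = refl cs h (rho cs h w (α i)) := by
        apply rho_inj cs h
        rw [rho_refl cs h _ hq, map_mul, map_mul, rho_simple, rho_conj, mul_assoc, ← map_mul, mul_inv_cancel,
          map_one, mul_one]
      rcases R.P_root _ hq with hp | hp
      · exact ⟨_, hq, hp, key⟩
      · refine ⟨_, ?_, hp, ?_⟩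
        · rw [R.Q_neg, R.Q_negr, hq]; norm_num
        · rw [key]
          apply rho_inj cs h
          rw [rho_refl cs h _ hq, rho_refl cs h _ (by rw [R.Q_neg, R.Q_negr, hq]; norm_num), R.r_neg]
    · rintro ⟨b, hq, -, rfl⟩
      obtain ⟨w, i, -, e⟩ := refl_spec cs h b hq
      exact ⟨w, i, e⟩
  lt := by
    intro w b hq hp hpos
    have h1 := gt_aux cs h _ (w * refl cs h b) b rfl hq hp (by
      rw [rho_mul_apply, rho_refl cs h b hq, R.r_self hq, map_neg, neg_neg]; exact hpos)
    rwa [mul_assoc, refl_sq cs h b hq, mul_one] at h1
  gt := fun w b hq hp hneg => gt_aux cs h _ w b rfl hq hp hneg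

end rep

end Pool.Agent.H22.ZDE
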